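import Mathlib
import Pool.Agent.H91.OPP.TTB

/-!
# Module CUP: cup products with the label cochains and the coboundary
-/

set_option autoImplicit false

namespace Pool.OPP

theorem cup_del_smul {X : Type} (c : ℤ) (φ : List X → ℤ) (k : List X) :
    del (fun l => c * φ l) k = c * del φ k := by
  induction k generalizing φ with
  | nil => simp [del]
  | cons x l ih =>
    simp only [del]
    rw [ih (fun l' => φ (x :: l'))]
    ring

theorem cup (h : S_CUPD) : S_CUP := by
  intro X l φ hφ
  have h3 := (h X l).2.1
  refine ⟨?_, ?_⟩
  · intro k
    match k with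
    | [] => simp [del, cup2]
    | [w] => simp [del, cup2, cup1]
    | [w, x] => simp [del, cup2, cup1]
    | x :: y :: z :: k =>
      have e1 : del (cup1 (la l) φ) (x :: y :: z :: k) =
          la l y z * φ (z :: k) - (la l x z * φ (z :: k) -
            del (fun l' => la l x y * φ (y :: l')) (z :: k)) := rfl
      have e2 : del φ (y :: z :: k) = φ (z :: k) - del (fun l' => φ (y :: l')) (z :: k) := rfl
      have e3' : cup2 (e3 l) φ (x :: y :: z :: k) = e3 l x y z * φ (z :: k) := rfl
      have h4 := hφ (y :: z :: k)
      have h5 := h3 x y z
      rw [e1, e3', cup_del_smul]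
      rw [e2] at h4
      linear_combination φ (z :: k) * h5 + la l x y * h4
  · intro u k
    match k with
    | [] => simp [del, cup1]
    | [w] => simp [del, cup0, cup1]
    | x :: y :: k =>
      have e1 : del (cup0 u φ) (x :: y :: k) =
          u y * φ (y :: k) - del (fun l' => u x * φ (x :: l')) (y :: k) := rfl
      have e2 : del φ (x :: y :: k) = φ (y :: k) - del (fun l' => φ (x :: l')) (y :: k) := rfl
      have e3' : cup1 (fun x y => u y - u x) φ (x :: y :: k) = (u y - u x) * φ (y :: k) := rfl
      have h4 := hφ (x :: y :: k)
      rw [e1, e3', cup_del_smul]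
      rw [e2] at h4
      linear_combination u x * h4

end Pool.OPP
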