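import Mathlib
import Pool.Agent.H91.OPP.TTB

/-!
# Module CUPN: cup products of normalised cochains are normalised
-/

set_option autoImplicit false

namespace Pool.OPP

theorem cupn_la {X : Type} (l : X → ZMod 3) (x : X) : la l x x = 0 := by
  simp [la]

theorem cupn_e_left {X : Type} (l : X → ZMod 3) (x z : X) : e3 l x x z = 0 := by
  simp [e3, cupn_la]

theorem cupn_e_right {X : Type} (l : X → ZMod 3) (x z : X) : e3 l x z z = 0 := by
  simp [e3, cupn_la]

theorem cupn_one {X : Type} (k : List X) : del (one0 : List X → ℤ) k = 0 := by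
  match k with
  | [] => rfl
  | [x] => rfl
  | [x, y] => rfl
  | x :: y :: z :: k =>
    have e1 : del (one0 : List X → ℤ) (x :: y :: z :: k) =
      0 - (0 - del (fun _ => (0 : ℤ)) (z :: k)) := rfl
    rw [e1, del_cons_zero]
    ring

theorem cupn : S_CUPN := by
  intro X l φ hφ
  obtain ⟨h0, hN⟩ := hφ
  refine ⟨⟨rfl, ?_⟩, ⟨rfl, ?_⟩, fun u => ⟨rfl, ?_⟩, ⟨rfl, ?_⟩, cupn_one⟩
  · intro l₁ x l₂
    match l₁ with
    | [] =>
      match l₂ with
      | [] => rfl
      | z :: l₂ =>
        change e3 l x x z * φ (z :: l₂) = 0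
        rw [cupn_e_left, zero_mul]
    | [a] =>
      change e3 l a x x * φ (x :: l₂) = 0
      rw [cupn_e_right, zero_mul]
    | [a, b] =>
      change e3 l a b x * φ (x :: x :: l₂) = 0
      rw [show φ (x :: x :: l₂) = 0 from hN [] x l₂, mul_zero]
    | a :: b :: c :: l₁ =>
      change e3 l a b c * φ (c :: (l₁ ++ x :: x :: l₂)) = 0
      rw [show φ (c :: (l₁ ++ x :: x :: l₂)) = 0 from hN (c :: l₁) x l₂, mul_zero]
  · intro l₁ x l₂
    match l₁ with
    | [] =>
      change la l x x * φ (x :: l₂) = 0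
      rw [cupn_la, zero_mul]
    | [a] =>
      change la l a x * φ (x :: x :: l₂) = 0
      rw [show φ (x :: x :: l₂) = 0 from hN [] x l₂, mul_zero]
    | a :: b :: l₁ =>
      change la l a b * φ (b :: (l₁ ++ x :: x :: l₂)) = 0
      rw [show φ (b :: (l₁ ++ x :: x :: l₂)) = 0 from hN (b :: l₁) x l₂, mul_zero]
  · intro l₁ x l₂
    match l₁ with
    | [] =>
      change u x * φ (x :: x :: l₂) = 0
      rw [show φ (x :: x :: l₂) = 0 from hN [] x l₂, mul_zero]
    | a :: l₁ =>
      change u a * φ (a :: (l₁ ++ x :: x :: l₂)) = 0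
      rw [show φ (a :: (l₁ ++ x :: x :: l₂)) = 0 from hN (a :: l₁) x l₂, mul_zero]
  · intro l₁ x l₂
    match l₁ with
    | [] => rfl
    | [a] => rfl
    | a :: b :: l₁ => rfl

end Pool.OPP
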