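import Mathlib
import Pool.Agent.H7.OPP.Stmts

/-!
# Module NPHI: compressed point evaluations
-/

set_option autoImplicit false

open scoped Topology ComplexConjugate Uniformity

namespace Pool.OPP

section posdef
open scoped MatrixOrder Matrix.Norms.L2Operator ComplexOrder

theorem nphi_factor {N : Type} [Fintype N] [DecidableEq N] (M : Matrix N N ℂ)
    (h : M.PosSemidef) : ∃ C : Matrix N N ℂ, M = star C * C :=
  CStarAlgebra.nonneg_iff_eq_star_mul_self.mp h.nonneg

end posdef

noncomputable section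

/-- finite vectors -/
def nphi_vec (k : ℕ) (w : JJ k → ℂ) : HH := ∑ t : JJ k, w t • bv (t : JI)

theorem nphi_inner (k : ℕ) (w : JJ k → ℂ) (g : HH) :
    inner ℂ (nphi_vec k w) g = ∑ t : JJ k, conj (w t) * (g : JI → ℂ) t := by
  unfold nphi_vec
  rw [sum_inner]
  refine Finset.sum_congr rfl fun t _ => ?_
  rw [inner_smul_left]
  congr 1
  unfold bv
  rw [lp.inner_single_left]
  simp

theorem nphi_vec_apply (k : ℕ) (w : JJ k → ℂ) (t : JJ k) :
    (nphi_vec k w : JI → ℂ) t = w t := by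
  classical
  unfold nphi_vec bv
  rw [lp.coeFn_sum, Finset.sum_apply]
  rw [Finset.sum_eq_single t]
  · simp
  · intro b _ hb
    have : (b : JI) ≠ (t : JI) := fun h => hb (Subtype.ext h)
    simp [lp.single_apply, this.symm]
  · intro h
    exact absurd (Finset.mem_univ t) h

theorem nphi_norm_sq (k : ℕ) (w : JJ k → ℂ) : ‖nphi_vec k w‖ ^ 2 = ∑ t : JJ k, ‖w t‖ ^ 2 := by
  have h1 : (inner ℂ (nphi_vec k w) (nphi_vec k w) : ℂ) = ((∑ t : JJ k, ‖w t‖ ^ 2 : ℝ) : ℂ) := by
    rw [nphi_inner]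
    push_cast
    refine Finset.sum_congr rfl fun t _ => ?_
    rw [nphi_vec_apply, Complex.conj_mul']
  rw [inner_self_eq_norm_sq_to_K] at h1
  have h2 : ((‖nphi_vec k w‖ ^ 2 : ℝ) : ℂ) = ((∑ t : JJ k, ‖w t‖ ^ 2 : ℝ) : ℂ) := by
    rw [← h1]; norm_cast
  exact_mod_cast h2

theorem nphi_coord (k : ℕ) (f : BH) (w : JJ k → ℂ) (s : JI) :
    (f (nphi_vec k w) : JI → ℂ) s = ∑ t : JJ k, mc f s t * w t := by
  unfold nphi_vec
  rw [map_sum, lp.coeFn_sum, Finset.sum_apply]
  refine Finset.sum_congr rfl fun t _ => ?_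
  rw [map_smul, lp.coeFn_smul, Pi.smul_apply, smul_eq_mul, mul_comm]
  rfl

theorem nphi_le (k : ℕ) (g : HH) : ∑ s : JJ k, ‖(g : JI → ℂ) s‖ ^ 2 ≤ ‖g‖ ^ 2 := by
  have h := lp.sum_rpow_le_norm_rpow (p := 2) (by norm_num) g (JJ k)
  simp only [ENNReal.toReal_ofNat, Real.rpow_two] at h
  rw [← Finset.sum_coe_sort (JJ k) (fun s => ‖(g : JI → ℂ) s‖ ^ 2)] at h
  exact h

theorem nphi_quad (k n : ℕ) (F : Fin n → Fin n → BH) (w : Fin n → JJ k → ℂ) :
    ∃ r : ℝ, 0 ≤ r ∧ ∑ i, ∑ j, ∑ s : JJ k, ∑ t : JJ k,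
      conj (w i s) * mc (∑ l, star (F l i) * F l j) s t * w j t = (r : ℂ) := by
  refine ⟨∑ l, ‖∑ j, F l j (nphi_vec k (w j))‖ ^ 2, Finset.sum_nonneg fun l _ => by positivity, ?_⟩
  have h1 : ∀ i j, ∑ s : JJ k, ∑ t : JJ k,
      conj (w i s) * mc (∑ l, star (F l i) * F l j) s t * w j t =
      ∑ l, (inner ℂ (F l i (nphi_vec k (w i))) (F l j (nphi_vec k (w j))) : ℂ) := by
    intro i j
    have h2 : ∑ s : JJ k, ∑ t : JJ k,
        conj (w i s) * mc (∑ l, star (F l i) * F l j) s t * w j t =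
        inner ℂ (nphi_vec k (w i)) ((∑ l, star (F l i) * F l j) (nphi_vec k (w j))) := by
      rw [nphi_inner]
      refine Finset.sum_congr rfl fun s _ => ?_
      rw [nphi_coord, Finset.mul_sum]
      refine Finset.sum_congr rfl fun t _ => ?_
      ring
    rw [h2, sum_apply, inner_sum]
    refine Finset.sum_congr rfl fun l _ => ?_
    change (inner ℂ (nphi_vec k (w i)) (star (F l i) (F l j (nphi_vec k (w j)))) : ℂ) = _
    rw [ContinuousLinearMap.star_eq_adjoint, ContinuousLinearMap.adjoint_inner_right]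
  simp_rw [h1]
  rw [show (∑ i, ∑ j, ∑ l, (inner ℂ (F l i (nphi_vec k (w i))) (F l j (nphi_vec k (w j))) : ℂ)) =
    ∑ l, ∑ i, ∑ j, (inner ℂ (F l i (nphi_vec k (w i))) (F l j (nphi_vec k (w j))) : ℂ) from ?_]
  · push_cast
    refine Finset.sum_congr rfl fun l _ => ?_
    rw [← Complex.ofReal_pow]
    rw [show ((‖∑ j, F l j (nphi_vec k (w j))‖ ^ 2 : ℝ) : ℂ) =
      inner ℂ (∑ j, F l j (nphi_vec k (w j))) (∑ j, F l j (nphi_vec k (w j))) from ?_]
    · rw [sum_inner]
      refine Finset.sum_congr rfl fun i _ => ?_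
      rw [inner_sum]
    · rw [inner_self_eq_norm_sq_to_K]
      norm_cast
  · rw [Finset.sum_congr rfl fun i _ => Finset.sum_comm]
    exact Finset.sum_comm

/-- the map `φ` -/
def nphi_map (L k m : ℕ) (p : Fin L → SS) (e : Fin L × JJ k ≃ Fin m) :
    AA →ₗ[ℂ] Matrix (Fin m) (Fin m) ℂ where
  toFun b := Matrix.of fun i j => if (e.symm i).1 = (e.symm j).1 then
    mc ((b : BB) (p (e.symm i).1)) (e.symm i).2 (e.symm j).2 else 0
  map_add' a b := by
    ext i j
    simp only [Matrix.of_apply, Matrix.add_apply]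
    split_ifs
    · rfl
    · ring
  map_smul' c a := by
    ext i j
    simp only [Matrix.of_apply, Matrix.smul_apply]
    split_ifs
    · rfl
    · simp

theorem nphi_map_apply (L k m : ℕ) (p : Fin L → SS) (e : Fin L × JJ k ≃ Fin m) (b : AA)
    (l l' : Fin L) (s t : JJ k) : nphi_map L k m p e b (e (l, s)) (e (l', t)) =
      if l = l' then mc ((b : BB) (p l)) s t else 0 := by
  change (if (e.symm (e (l, s))).1 = (e.symm (e (l', t))).1 then
    mc ((b : BB) (p (e.symm (e (l, s))).1)) (e.symm (e (l, s))).2 (e.symm (e (l', t))).2 else 0) = _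
  rw [Equiv.symm_apply_apply, Equiv.symm_apply_apply]

theorem nphi_sum_coe (n : ℕ) (B : Fin n → Fin n → AA) (i j : Fin n) (x : SS) :
    ((∑ l, star (B l i) * B l j : AA) : BB) x =
      ∑ l, star ((B l i : BB) x) * (B l j : BB) x := by
  have h : ((∑ l, star (B l i) * B l j : AA) : BB) = ∑ l, star (B l i : BB) * (B l j : BB) := by
    push_cast
    rfl
  rw [h, ContinuousMap.sum_apply]
  rfl

theorem nphi_mc_sum_star (hD : SDia) (n : ℕ) (F : Fin n → Fin n → BH) (i j : Fin n) (s t : JI) :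
    mc (∑ l, star (F l i) * F l j) s t = conj (mc (∑ l, star (F l j) * F l i) t s) := by
  have h := hD.2.2.2.2.2.2.2.2.2.1 (∑ l, star (F l j) * F l i) s t
  rw [← h]
  congr 1
  rw [star_sum]
  refine Finset.sum_congr rfl fun l _ => ?_
  rw [star_mul, star_star]

section cp
open scoped MatrixOrder Matrix.Norms.L2Operator ComplexOrder

theorem nphi_cp (hD : SDia) (L k m : ℕ) (p : Fin L → SS) (e : Fin L × JJ k ≃ Fin m) (n : ℕ)
    (B : Fin n → Fin n → AA) : ∃ C : Fin n → Fin n → Matrix (Fin m) (Fin m) ℂ,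
      ∀ i j, nphi_map L k m p e (∑ l, star (B l i) * B l j) = ∑ l, star (C l i) * C l j := by
  classical
  let M : Matrix (Fin n × Fin m) (Fin n × Fin m) ℂ := Matrix.of fun x y =>
    nphi_map L k m p e (∑ l, star (B l x.1) * B l y.1) x.2 y.2
  have hM : ∀ (i j : Fin n) (l l' : Fin L) (s t : JJ k), M (i, e (l, s)) (j, e (l', t)) =
      if l = l' then mc (∑ q, star ((B q i : BB) (p l)) * (B q j : BB) (p l)) s t else 0 := by
    intro i j l l' s t
    change nphi_map L k m p e (∑ l, star (B l i) * B l j) (e (l, s)) (e (l', t)) = _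
    rw [nphi_map_apply, nphi_sum_coe]
  have hH : M.IsHermitian := by
    ext ⟨i, a⟩ ⟨j, b⟩
    obtain ⟨⟨l, s⟩, rfl⟩ := e.surjective a
    obtain ⟨⟨l', t⟩, rfl⟩ := e.surjective b
    rw [Matrix.conjTranspose_apply, hM, hM]
    by_cases hl : l = l'
    · subst hl
      rw [if_pos rfl, if_pos rfl,
        nphi_mc_sum_star hD n (fun q i => (B q i : BB) (p l)) i j s t]
      rfl
    · rw [if_neg hl, if_neg (Ne.symm hl), star_zero]
  have hP : M.PosSemidef := by
    refine Matrix.PosSemidef.of_dotProduct_mulVec_nonneg hH fun v => ?_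
    have h1 : star v ⬝ᵥ (M.mulVec v) = ∑ l : Fin L, ∑ i, ∑ j, ∑ s : JJ k, ∑ t : JJ k,
        conj (v (i, e (l, s))) * mc (∑ q, star ((B q i : BB) (p l)) * (B q j : BB) (p l)) s t *
          v (j, e (l, t)) := by
      have h2 : star v ⬝ᵥ (M.mulVec v) = ∑ i, ∑ l : Fin L, ∑ s : JJ k, ∑ j, ∑ l' : Fin L,
          ∑ t : JJ k, conj (v (i, e (l, s))) * (M (i, e (l, s)) (j, e (l', t)) *
            v (j, e (l', t))) := by
        simp only [dotProduct, Matrix.mulVec]
        rw [Fintype.sum_prod_type]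
        refine Finset.sum_congr rfl fun i _ => ?_
        rw [← Equiv.sum_comp e, Fintype.sum_prod_type]
        refine Finset.sum_congr rfl fun l _ => Finset.sum_congr rfl fun s _ => ?_
        rw [Fintype.sum_prod_type, Finset.mul_sum]
        refine Finset.sum_congr rfl fun j _ => ?_
        rw [← Equiv.sum_comp e, Fintype.sum_prod_type, Finset.mul_sum]
        refine Finset.sum_congr rfl fun l' _ => ?_
        rw [Finset.mul_sum]
        rfl
      rw [h2, Finset.sum_comm]
      refine Finset.sum_congr rfl fun l _ => Finset.sum_congr rfl fun i _ => ?_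
      rw [Finset.sum_comm]
      refine Finset.sum_congr rfl fun j _ => Finset.sum_congr rfl fun s _ => ?_
      rw [Finset.sum_eq_single l]
      · refine Finset.sum_congr rfl fun t _ => ?_
        rw [hM, if_pos rfl]
        ring
      · intro l' _ hl'
        refine Finset.sum_eq_zero fun t _ => ?_
        rw [hM, if_neg (Ne.symm hl'), zero_mul, mul_zero]
      · intro h
        exact absurd (Finset.mem_univ l) h
    rw [h1]
    refine Finset.sum_nonneg fun l _ => ?_
    obtain ⟨r, hr, h3⟩ := nphi_quad k n (fun q i => (B q i : BB) (p l)) (fun i s => v (i, e (l, s)))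
    rw [h3]
    exact_mod_cast hr
  obtain ⟨C, hC⟩ := nphi_factor M hP
  refine ⟨fun l i => Matrix.of fun a b => C (l, a) (i, b), fun i j => ?_⟩
  ext a b
  have h1 : nphi_map L k m p e (∑ l, star (B l i) * B l j) a b = M (i, a) (j, b) := rfl
  rw [h1, hC, Matrix.mul_apply, Fintype.sum_prod_type, Matrix.sum_apply]
  refine Finset.sum_congr rfl fun l _ => ?_
  rw [Matrix.mul_apply]
  rfl

end cp

theorem nphi_bound (L k m : ℕ) (p : Fin L → SS) (e : Fin L × JJ k ≃ Fin m) (x : AA) :
    ‖Matrix.toEuclideanCLM (𝕜 := ℂ) (nphi_map L k m p e x)‖ ≤ ‖x‖ := by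
  refine ContinuousLinearMap.opNorm_le_bound _ (norm_nonneg _) fun v => ?_
  rw [← sq_le_sq₀ (norm_nonneg _) (by positivity), mul_pow, EuclideanSpace.norm_sq_eq,
    EuclideanSpace.norm_sq_eq]
  have h1 : ∀ (l : Fin L) (s : JJ k),
      (Matrix.toEuclideanCLM (𝕜 := ℂ) (nphi_map L k m p e x) v) (e (l, s)) =
      (((x : BB) (p l)) (nphi_vec k (fun t => v (e (l, t)))) : JI → ℂ) s := by
    intro l s
    rw [nphi_coord]
    change (nphi_map L k m p e x).mulVec v.ofLp (e (l, s)) = _
    simp only [Matrix.mulVec, dotProduct]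
    rw [← Equiv.sum_comp e, Fintype.sum_prod_type, Finset.sum_eq_single l]
    · refine Finset.sum_congr rfl fun t _ => ?_
      rw [nphi_map_apply, if_pos rfl]
    · intro l' _ hl'
      refine Finset.sum_eq_zero fun t _ => ?_
      rw [nphi_map_apply, if_neg (Ne.symm hl'), zero_mul]
    · intro h
      exact absurd (Finset.mem_univ l) h
  rw [← Equiv.sum_comp e, ← Equiv.sum_comp e, Fintype.sum_prod_type, Fintype.sum_prod_type,
    Finset.mul_sum]
  refine Finset.sum_le_sum fun l _ => ?_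
  simp_rw [h1]
  refine (nphi_le k _).trans ?_
  rw [← nphi_norm_sq k (fun t => v (e (l, t))), ← mul_pow]
  refine pow_le_pow_left₀ (norm_nonneg _) ?_ 2
  refine (ContinuousLinearMap.le_opNorm _ _).trans ?_
  exact mul_le_mul_of_nonneg_right (ContinuousMap.norm_coe_le_norm (x : BB) (p l)) (norm_nonneg _)

theorem nphi (h : SDia) : SNphi := by
  intro L k p
  refine ⟨Fintype.card (Fin L × JJ k), Fintype.equivFin _, nphi_map L k _ p (Fintype.equivFin _),
    ?_, ?_, ?_⟩
  · intro b l l' s t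
    exact nphi_map_apply L k _ p _ b l l' s t
  · intro n B
    exact nphi_cp h L k _ p _ n B
  · intro x
    exact nphi_bound L k _ p _ x

end

end Pool.OPP
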