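import Mathlib
import Pool.Agent.H7.OPP.Stmts

/-!
# Module PUN: partitions of unity
-/

set_option autoImplicit false

open scoped Topology ComplexConjugate Uniformity

namespace Pool.OPP

noncomputable section

/-- bump function -/
def pun_bump (n : ℕ) (δ : ℝ) (q : SS) : C(SS, ℝ) :=
  ⟨fun x => ∏ j ∈ Finset.range n, max 0 (δ - ‖(q j : EuclideanSpace ℂ (Fin (NN j))) -
      (x j : EuclideanSpace ℂ (Fin (NN j)))‖), by
    refine continuous_finsetProd _ fun j _ => ?_
    refine continuous_const.max (continuous_const.sub (Continuous.norm (continuous_const.sub ?_)))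
    exact continuous_subtype_val.comp (continuous_apply j)⟩

theorem pun_bump_nonneg (n : ℕ) (δ : ℝ) (q x : SS) : 0 ≤ pun_bump n δ q x := by
  change 0 ≤ ∏ j ∈ Finset.range n, _
  exact Finset.prod_nonneg fun j _ => le_max_left _ _

theorem pun_bump_dep (n m : ℕ) (hnm : n ≤ m) (δ : ℝ) (q x y : SS) (h : ∀ j < m, x j = y j) :
    pun_bump n δ q x = pun_bump n δ q y := by
  change ∏ j ∈ Finset.range n, _ = ∏ j ∈ Finset.range n, _
  refine Finset.prod_congr rfl fun j hj => ?_
  rw [h j (lt_of_lt_of_le (Finset.mem_range.1 hj) hnm)]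

theorem pun_bump_ne (n : ℕ) (δ : ℝ) (q x : SS) : pun_bump n δ q x ≠ 0 ↔ Close n δ q x := by
  change (∏ j ∈ Finset.range n, _) ≠ 0 ↔ _
  rw [Finset.prod_ne_zero_iff]
  constructor
  · intro h j hj
    have h1 := h j (Finset.mem_range.2 hj)
    by_contra hc
    apply h1
    exact max_eq_left (by linarith)
  · intro h j hj
    have h1 := h j (Finset.mem_range.1 hj)
    have h2 : 0 < max 0 (δ - ‖(q j : EuclideanSpace ℂ (Fin (NN j))) -
      (x j : EuclideanSpace ℂ (Fin (NN j)))‖) := lt_max_of_lt_right (by linarith)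
    exact h2.ne'

theorem pun_close_mono {n m : ℕ} {δ δ' : ℝ} (h1 : n ≤ m) (h2 : δ' ≤ δ) {x y : SS}
    (h : Close m δ' x y) : Close n δ x y :=
  fun j hj => lt_of_lt_of_le (h j (lt_of_lt_of_le hj h1)) h2

/-- finitely many conditions can be satisfied simultaneously -/
theorem pun_fin {ι : Type} [Finite ι] (P : ι → SS → SS → Prop)
    (h : ∀ i, ∃ (n : ℕ) (δ : ℝ), 0 < δ ∧ ∀ x y : SS, Close n δ x y → P i x y) :
    ∃ (n : ℕ) (δ : ℝ), 0 < δ ∧ ∀ i, ∀ x y : SS, Close n δ x y → P i x y := by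
  classical
  have := Fintype.ofFinite ι
  choose n δ hδ hP using h
  rcases isEmpty_or_nonempty ι with he | he
  · exact ⟨0, 1, one_pos, fun i => (he.false i).elim⟩
  · refine ⟨Finset.univ.sup n, Finset.univ.inf' Finset.univ_nonempty δ, ?_, fun i x y hxy => ?_⟩
    · rw [Finset.lt_inf'_iff]
      exact fun i _ => hδ i
    · exact hP i x y (pun_close_mono (Finset.le_sup (Finset.mem_univ i))
        (Finset.inf'_le _ (Finset.mem_univ i)) hxy)

/-- the local condition -/
theorem pun_local (h : SUnc) (hcl : ∀ w, IsClosed (FF w)) (ι : Type) [Finite ι]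
    (a : ι → C(SS, ℂ)) (ε : ℝ) (hε : 0 < ε) (q : SS) :
    ∃ (n : ℕ) (δ : ℝ), 0 < δ ∧ ∀ x : SS, Close n δ q x →
      (∀ i, ‖a i x - a i q‖ < ε) ∧ ∀ w, x ∈ FF w → q ∈ FF w := by
  obtain ⟨h1, h2, h3⟩ := h
  obtain ⟨n₁, δ₁, hδ₁, hP₁⟩ := pun_fin (fun i x y => ‖a i x - a i y‖ < ε)
    (fun i => h3 ℂ (a i) (a i).continuous ε hε)
  have hw : ∀ w, ∃ (n : ℕ) (δ : ℝ), 0 < δ ∧ ∀ x y : SS, Close n δ x y →
      (x = q → y ∈ FF w → q ∈ FF w) := by
    intro w
    by_cases hq : q ∈ FF w
    · exact ⟨0, 1, one_pos, fun _ _ _ _ _ => hq⟩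
    · have hn : (FF w)ᶜ ∈ 𝓝 q := (hcl w).isOpen_compl.mem_nhds hq
      rw [UniformSpace.mem_nhds_iff] at hn
      obtain ⟨V, hV, hVs⟩ := hn
      obtain ⟨n, δ, hδ, hc⟩ := h2 V hV
      refine ⟨n, δ, hδ, fun x y hxy hx hy => ?_⟩
      subst hx
      exact absurd hy (hVs (hc x y hxy))
  obtain ⟨n₂, δ₂, hδ₂, hP₂⟩ := pun_fin _ hw
  refine ⟨max n₁ n₂, min δ₁ δ₂, lt_min hδ₁ hδ₂, fun x hx => ⟨fun i => ?_, fun w hxw => ?_⟩⟩
  · have := hP₁ i q x (pun_close_mono (le_max_left _ _) (min_le_left _ _) hx)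
    rw [norm_sub_rev]
    exact this
  · exact hP₂ w q x (pun_close_mono (le_max_right _ _) (min_le_right _ _) hx) rfl hxw

theorem pun_isClosed_FF (w : Fin hh) : IsClosed (FF w) := by
  have h : Continuous fun x : SS => (x 0 : EuclideanSpace ℂ (Fin (NN 0))) :=
    continuous_subtype_val.comp (continuous_apply 0)
  exact isClosed_le continuous_const (Continuous.inner continuous_const h).norm

theorem pun (h : SUnc) : SPun := by
  intro ι _ a ε hε _
  choose n δ hδ hP using pun_local h pun_isClosed_FF ι a ε hε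
  have hopen : ∀ q, IsOpen {x : SS | Close (n q) (δ q) q x} := by
    intro q
    have : {x : SS | Close (n q) (δ q) q x} = {x : SS | pun_bump (n q) (δ q) q x ≠ 0} := by
      ext x
      exact (pun_bump_ne _ _ _ _).symm
    rw [this]
    exact isOpen_ne_fun (pun_bump (n q) (δ q) q).continuous continuous_const
  have hcov : (Set.univ : Set SS) ⊆ ⋃ q, {x : SS | Close (n q) (δ q) q x} := by
    intro x _
    refine Set.mem_iUnion.2 ⟨x, fun j _ => ?_⟩
    rw [sub_self, norm_zero]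
    exact hδ x
  obtain ⟨t, ht⟩ := isCompact_univ.elim_finite_subcover _ hopen hcov
  have hG : ∀ x : SS, 0 < ∑ l : Fin t.card, pun_bump (n (t.equivFin.symm l))
      (δ (t.equivFin.symm l)) (t.equivFin.symm l) x := by
    intro x
    have hx := ht (Set.mem_univ x)
    simp only [Set.mem_iUnion] at hx
    obtain ⟨q, hq, hqx⟩ := hx
    refine Finset.sum_pos' (fun l _ => pun_bump_nonneg _ _ _ _) ⟨t.equivFin ⟨q, hq⟩,
      Finset.mem_univ _, ?_⟩
    simp only [Equiv.symm_apply_apply]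
    exact lt_of_le_of_ne (pun_bump_nonneg _ _ _ _) ((pun_bump_ne _ _ _ _).2 hqx).symm
  refine ⟨t.card, t.sup n, fun l => (t.equivFin.symm l : SS), fun l =>
    ⟨fun x => pun_bump (n (t.equivFin.symm l)) (δ (t.equivFin.symm l)) (t.equivFin.symm l) x /
      ∑ l : Fin t.card, pun_bump (n (t.equivFin.symm l))
      (δ (t.equivFin.symm l)) (t.equivFin.symm l) x, ?_⟩, ?_, ?_, ?_, ?_⟩
  · refine Continuous.div (ContinuousMap.continuous _) ?_ fun x => (hG x).ne'
    exact continuous_finsetSum _ fun l _ => ContinuousMap.continuous _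
  · intro l x
    exact div_nonneg (pun_bump_nonneg _ _ _ _) (hG x).le
  · intro x
    change ∑ l : Fin t.card, _ / _ = (1 : ℝ)
    rw [← Finset.sum_div]
    exact div_self (hG x).ne'
  · intro l x y hxy
    have hd : ∀ l : Fin t.card, pun_bump (n (t.equivFin.symm l)) (δ (t.equivFin.symm l))
        (t.equivFin.symm l) x = pun_bump (n (t.equivFin.symm l)) (δ (t.equivFin.symm l))
        (t.equivFin.symm l) y := by
      intro l
      exact pun_bump_dep _ _ (Finset.le_sup (t.equivFin.symm l).2) _ _ _ _ hxy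
    change (_ : ℝ) / _ = (_ : ℝ) / _
    rw [hd l, Finset.sum_congr rfl fun l _ => hd l]
  · intro l x hx
    apply hP
    rw [← pun_bump_ne]
    intro h0
    apply hx
    change (_ : ℝ) / _ = (0 : ℝ)
    rw [h0, zero_div]

end

end Pool.OPP
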